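import Pool.Agent.Lib.MP_a38b16_an.Defs

/-! The coupled cubic system on the line: constrained critical points. -/

set_option autoImplicit false

open MeasureTheory

namespace Pool.Agent.Lib.MP_a38b16_an.PS

/-- The scalar product with parameter `l`. -/
noncomputable def bil (l : ℝ) (w φ : H10) : ℝ :=
  ∫ x, (w.der x * φ.der x + l * (w.val x * φ.val x))

/-- The derivative of the energy at `(u, v)` in the direction `(φ, ψ)`. -/
noncomputable def dE (l₁ l₂ μ₁ μ₂ β : ℝ) (u v φ ψ : H10) : ℝ :=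
  (bil l₁ u φ - ∫ x, (μ₁ * u.val x ^ 3 + β * (u.val x * v.val x ^ 2)) * φ.val x) +
    (bil l₂ v ψ - ∫ x, (μ₂ * v.val x ^ 3 + β * (v.val x * u.val x ^ 2)) * ψ.val x)

/-- The derivative at `(u, v)` in the direction `(φ, ψ)` of the constraint
`bil l u u - ∫ (μ u^4 + β u^2 v^2)`. -/
noncomputable def dG (l μ β : ℝ) (u v φ ψ : H10) : ℝ :=
  2 * bil l u φ - ∫ x, (4 * μ * u.val x ^ 3 * φ.val x +
    2 * β * (u.val x * v.val x ^ 2) * φ.val x + 2 * β * (u.val x ^ 2 * v.val x) * ψ.val x)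

/-- A point of the Nehari-type set at which the two constraints have a surjective derivative and
the derivative of the energy vanishes on the tangent space. -/
def IsConstrainedCritical (l₁ l₂ μ₁ μ₂ β : ℝ) (u v : H10) : Prop :=
  InNehari l₁ l₂ μ₁ μ₂ β u v ∧
    (∀ s t : ℝ, ∃ φ ψ : H10, dG l₁ μ₁ β u v φ ψ = s ∧ dG l₂ μ₂ β v u ψ φ = t) ∧
    ∀ φ ψ : H10, dG l₁ μ₁ β u v φ ψ = 0 → dG l₂ μ₂ β v u ψ φ = 0 →
      dE l₁ l₂ μ₁ μ₂ β u v φ ψ = 0

end Pool.Agent.Lib.MP_a38b16_an.PS
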