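import Pool.Agent.Lib.MP_a38b16_an.PS.Defs
import Pool.Agent.Lib.MP_a38b16_an.Main
import Pool.Agent.Lib.MP_a38b16_an.NC.Core

/-! Two translated solitons: multipliers `-1/2` and `1` decouple the system. -/

set_option autoImplicit false

open MeasureTheory Filter Topology Set
open scoped ContDiff

namespace Pool.Agent.Lib.MP_a38b16_an.PS

open NC (cder hder pair_lim int3)

/-- Smooth and square integrable together with the derivative. -/
def Good (f : ℝ → ℝ) : Prop := ContDiff ℝ ∞ f ∧ MemLp f 2 volume ∧ MemLp (deriv f) 2 volume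

/-- Bundling. -/
noncomputable def Good.toH {f : ℝ → ℝ} (h : Good f) : H10 := ofSmooth f h.1 h.2.1 h.2.2

lemma Good.comb {f g : ℝ → ℝ} (hf : Good f) (hg : Good g) (s t : ℝ) :
    Good fun x => s * f x + t * g x := by
  refine ⟨(contDiff_const.mul hf.1).add (contDiff_const.mul hg.1),
    (hf.2.1.const_mul s).add (hg.2.1.const_mul t), ?_⟩
  rw [show deriv (fun x => s * f x + t * g x) = fun x => s * deriv f x + t * deriv g x from
    funext fun x => (((hder hf.1 x).const_mul s).fun_add ((hder hg.1 x).const_mul t)).deriv]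
  exact (hf.2.2.const_mul s).add (hg.2.2.const_mul t)

lemma weak {F G : ℝ → ℝ} (hF : MemLp F 2 volume) (hG : MemLp G 2 volume)
    (h : ∀ x, HasDerivAt F (-G x) x) (ψ : H10) :
    ∫ x, F x * ψ.der x = ∫ x, G x * ψ.val x := by
  obtain ⟨φ, h1, h2, h3⟩ := ψ.approx
  have m1 : ∀ n, MemLp (φ n) 2 volume := fun n =>
    (h1 n).1.continuous.memLp_of_hasCompactSupport (h1 n).2
  have m2 : ∀ n, MemLp (deriv (φ n)) 2 volume := fun n =>
    (cder (h1 n).1).memLp_of_hasCompactSupport (h1 n).2.deriv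
  refine tendsto_nhds_unique (pair_lim hF ψ.memLp_der m2 h3)
    ((pair_lim hG ψ.memLp_val m1 h2).congr fun n => ?_)
  rw [integral_mul_deriv_eq_deriv_mul_of_integrable (fun x _ => h x)
    (fun x _ => hder (h1 n).1 x) (hF.integrable_mul (m2 n)) (hG.neg.integrable_mul (m1 n))
    (hF.integrable_mul (m1 n)), ← integral_neg]
  simp

lemma z_le (x : ℝ) : z x ≤ 1 := inv_le_one_of_one_le₀ (Real.one_le_cosh x)

lemma th_le (x : ℝ) : |th x| ≤ 1 :=
  abs_le_one_iff_mul_self_le_one.2 (by nlinarith [z_sq_add x, sq_nonneg (z x)])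

/-- The rescaled and translated soliton. -/
noncomputable def sol (k d x : ℝ) : ℝ := z (k * (x - d))

lemma sol_pos (k d x : ℝ) : 0 < sol k d x := z_pos _

lemma sol_le (k d x : ℝ) : sol k d x ≤ 1 := z_le _

lemma lin (k d x : ℝ) : HasDerivAt (fun x => k * (x - d)) k x := by
  simpa using ((hasDerivAt_id x).sub_const d).const_mul k

lemma sol_smooth (k d : ℝ) : ContDiff ℝ ∞ (sol k d) :=
  contDiff_z.comp (contDiff_const.mul (contDiff_id.sub contDiff_const))

lemma sol_deriv (k d : ℝ) : deriv (sol k d) = fun x => -(sol k d x * th (k * (x - d))) * k :=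
  funext fun x => ((hasDerivAt_z _).comp x (lin k d x)).deriv

lemma sol_sq {k : ℝ} (hk : 0 < k) (d : ℝ) : Integrable fun x => sol k d x ^ 2 :=
  (int_z2.comp_mul_left' hk.ne').comp_sub_right d

lemma sol_mem {k : ℝ} (hk : 0 < k) (d : ℝ) : MemLp (sol k d) 2 volume :=
  (memLp_two_iff_integrable_sq (sol_smooth k d).continuous.aestronglyMeasurable).2 (sol_sq hk d)

lemma sol_good {k : ℝ} (hk : 0 < k) (d : ℝ) : Good (sol k d) := by
  refine ⟨sol_smooth k d, sol_mem hk d, ((sol_mem hk d).const_mul k).of_le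
    (cder (sol_smooth k d)).aestronglyMeasurable (ae_of_all _ fun x => ?_)⟩
  rw [sol_deriv]
  simp only [norm_mul, norm_neg, Real.norm_eq_abs]
  rw [mul_comm]
  exact mul_le_mul_of_nonneg_left (mul_le_of_le_one_right (abs_nonneg _) (th_le _)) (abs_nonneg _)

lemma tri {k : ℝ} (hk : 0 < k) (d m e n f : ℝ) :
    MemLp (fun x => sol k d x * sol m e x * sol n f x) 2 volume := by
  refine (sol_mem hk d).of_le (((sol_smooth k d).continuous.mul (sol_smooth m e).continuous).mul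
    (sol_smooth n f).continuous).aestronglyMeasurable (ae_of_all _ fun x => ?_)
  have := sol_pos k d x
  have := sol_pos m e x
  have := sol_pos n f x
  rw [Real.norm_of_nonneg (by positivity), Real.norm_of_nonneg (by positivity), mul_assoc]
  exact mul_le_of_le_one_right (by positivity)
    (mul_le_one₀ (sol_le _ _ _) (by positivity) (sol_le _ _ _))

/-- Pairing of a soliton times the square of a soliton with a direction. -/
noncomputable def P (k d m e : ℝ) (φ : ℝ → ℝ) : ℝ :=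
  ∫ x, sol k d x * sol m e x * sol m e x * φ x

lemma sol_weak {k : ℝ} (hk : 0 < k) (d c : ℝ) (φ : H10) :
    bil (k ^ 2) ((sol_good hk d).comb (sol_good hk d) c 0).toH φ =
      2 * k ^ 2 * c * P k d k d φ.val := by
  have hs := sol_good hk d
  have e := weak (G := fun x => 2 * k ^ 2 * (sol k d x * sol k d x * sol k d x) -
      k ^ 2 * sol k d x) hs.2.2 (((tri hk d k d k d).const_mul _).sub (hs.2.1.const_mul _))
    (fun x => by
      rw [sol_deriv]
      refine (((((hasDerivAt_z _).comp x (lin k d x)).fun_mul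
        ((hasDerivAt_th _).comp x (lin k d x))).neg).mul_const k).congr_deriv ?_
      simp only [Function.comp, sol]
      linear_combination k ^ 2 * z (k * (x - d)) * z_sq_add (k * (x - d))) φ
  have i1 := (tri hk d k d k d).integrable_mul φ.memLp_val
  have i2 := hs.2.1.integrable_mul φ.memLp_val
  have i3 := hs.2.2.integrable_mul φ.memLp_der
  rw [int3 (h := fun x => (2 * k ^ 2 * (sol k d x * sol k d x * sol k d x) -
    k ^ 2 * sol k d x) * φ.val x) i1 i2 i2 (2 * k ^ 2) (-k ^ 2) 0 fun x => by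
      simp only [Pi.mul_apply]; ring] at e
  rw [bil, int3 i3 i2 i2 c (c * k ^ 2) 0 fun x => by
    have := (((hder hs.1 x).const_mul c).fun_add ((hder hs.1 x).const_mul 0)).deriv
    simp only [Good.toH, ofSmooth, Pi.mul_apply, this]; ring]
  simp only [Pi.mul_apply, P] at e ⊢
  rw [e]
  ring

lemma P_self {k : ℝ} (hk : 0 < k) (d : ℝ) : k * P k d k d (sol k d) = 4 / 3 := by
  have e : ∀ x, sol k d x * sol k d x * sol k d x * sol k d x =
      (fun y => (fun t => z t ^ 4) (k * y)) (x - d) := fun x => by simp only [sol]; ring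
  simp only [P, e]
  rw [integral_sub_right_eq_self (fun y => (fun t => z t ^ 4) (k * y)) d,
    Measure.integral_comp_mul_left (fun t => z t ^ 4) k, integral_z4, abs_of_pos (inv_pos.2 hk),
    smul_eq_mul, mul_inv_cancel_left₀ hk.ne']

lemma P_symm (k d m e : ℝ) : P k d m e (sol k d) = P m e k d (sol m e) :=
  integral_congr_ae (ae_of_all _ fun x => by simp only; ring)

lemma P_zero {k m : ℝ} (hk : 0 < k) (h : k ≤ m) : 4 / 3 ≤ m * P k 0 m 0 (sol k 0) := by
  have hm := hk.trans_le h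
  rw [← P_self hm 0]
  refine mul_le_mul_of_nonneg_left (integral_mono
    ((tri hm 0 m 0 m 0).integrable_mul (sol_mem hm 0))
    ((tri hk 0 m 0 m 0).integrable_mul (sol_mem hk 0)) fun x => ?_) hm.le
  have h1 : sol m 0 x ≤ sol k 0 x := inv_anti₀ (Real.cosh_pos _) (Real.cosh_le_cosh.2 (by
    rw [abs_mul, abs_mul, abs_of_pos hk, abs_of_pos hm]
    exact mul_le_mul_of_nonneg_right h (abs_nonneg _)))
  have := sol_pos m 0 x
  have := sol_pos k 0 x
  simp only
  gcongr

lemma exists_shift {k m r : ℝ} (hk : 0 < k) (hm : 0 < m) (r0 : 0 < r)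
    (r1 : r ≤ P k 0 m 0 (sol k 0)) : ∃ d, P k 0 m d (sol k 0) = r := by
  have c0 := (sol_smooth k 0).continuous
  have ms : ∀ d, AEStronglyMeasurable (fun x => sol k 0 x * sol m d x * sol m d x * sol k 0 x)
      volume := fun d => by
    have := (sol_smooth m d).continuous
    exact Continuous.aestronglyMeasurable (by fun_prop)
  have hb : ∀ d, ∀ᵐ x ∂volume, ‖sol k 0 x * sol m d x * sol m d x * sol k 0 x‖ ≤ sol k 0 x ^ 2 :=
    fun d => ae_of_all _ fun x => by
      have := sol_pos k 0 x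
      have := sol_pos m d x
      rw [Real.norm_of_nonneg (by positivity), show ∀ a b : ℝ, a * b * b * a = a ^ 2 * (b * b) from
        fun _ _ => by ring]
      exact mul_le_of_le_one_right (by positivity)
        (mul_le_one₀ (sol_le _ _ _) (by positivity) (sol_le _ _ _))
  have hc : Continuous fun d => P k 0 m d (sol k 0) :=
    continuous_of_dominated ms hb (sol_sq hk 0) (ae_of_all _ fun x => by
      have := contDiff_z.continuous
      unfold sol
      fun_prop)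
  have hz : Tendsto z atBot (𝓝 0) := by
    have h : Tendsto (fun x => z x ^ 2) atBot (𝓝 0) := by
      have := (th_atBot.pow 2).const_sub 1
      norm_num at this
      exact this.congr fun x => by linarith [z_sq_add x]
    simpa [Real.sqrt_sq (z_pos _).le] using h.sqrt
  have hl : Tendsto (fun d => P k 0 m d (sol k 0)) atTop (𝓝 (∫ _ : ℝ, (0 : ℝ))) :=
    tendsto_integral_filter_of_dominated_convergence _ (Eventually.of_forall ms)
      (Eventually.of_forall hb) (sol_sq hk 0) (ae_of_all _ fun x => by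
        have h : Tendsto (fun d => sol m d x) atTop (𝓝 0) :=
          hz.comp ((tendsto_atBot_add_const_left _ x tendsto_neg_atTop_atBot).const_mul_atBot hm)
        simpa using ((h.const_mul (sol k 0 x)).mul h).mul_const (sol k 0 x))
  rw [integral_zero] at hl
  obtain ⟨d, hd⟩ := (hl.eventually (Iio_mem_nhds r0)).exists
  exact mem_range_of_exists_le_of_exists_ge hc ⟨d, le_of_lt hd⟩ ⟨0, r1⟩

lemma exists_test {k m s t d : ℝ} (hk : 0 < k)
    (h0 : s * P k 0 m d (sol k 0) ≠ t * P m d m d (sol m d)) :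
    ∃ g, Good g ∧ s * P k 0 k 0 g - t * P k 0 m d g ≠ 0 := by
  by_contra h
  push Not at h
  have c0 := (sol_smooth k 0).continuous
  have cd := (sol_smooth m d).continuous
  have hc : Continuous fun x => s * (sol k 0 x * sol k 0 x * sol k 0 x) -
      t * (sol k 0 x * sol m d x * sol m d x) := by fun_prop
  have h1 := ae_eq_zero_of_integral_contDiff_smul_eq_zero (μ := volume) hc.locallyIntegrable
    fun g hg hs => by
      have n := hg.continuous.memLp_of_hasCompactSupport (p := 2) (μ := volume) hs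
      have := h g ⟨hg, n, (cder hg).memLp_of_hasCompactSupport hs.deriv⟩
      rw [int3 ((tri hk 0 k 0 k 0).integrable_mul n) ((tri hk 0 m d m d).integrable_mul n)
        ((tri hk 0 m d m d).integrable_mul n) s (-t) 0 fun x => by
          simp only [Pi.mul_apply, smul_eq_mul]; ring]
      simp only [Pi.mul_apply, P] at this ⊢
      linarith
  have h2 := (Continuous.ae_eq_iff_eq volume hc continuous_const).1 h1
  have h3 : ∀ x, s * sol k 0 x ^ 2 = t * sol m d x ^ 2 := fun x =>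
    mul_left_cancel₀ (sol_pos k 0 x).ne' (by linear_combination congrFun h2 x)
  refine h0 ?_
  unfold P
  rw [← integral_const_mul, ← integral_const_mul]
  exact integral_congr_ae (ae_of_all _ fun x => by
    simp only; linear_combination sol m d x ^ 2 * h3 x)

theorem core {k m μ₁ μ₂ β d : ℝ} (hk : 0 < k) (hm : 0 < m) (h1 : 0 < μ₁) (h2 : 0 < μ₂)
    (hβ : β ^ 2 ≠ μ₁ * μ₂)
    (e1 : β * m ^ 2 * P k 0 m d (sol k 0) = μ₂ * k ^ 2 * P k 0 k 0 (sol k 0))
    (e2 : β * k ^ 2 * P k 0 m d (sol k 0) = μ₁ * m ^ 2 * P m d m d (sol m d)) :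
    ∃ u v : H10, (∀ x, 0 < u.val x) ∧ (∀ x, 0 < v.val x) ∧
      IsConstrainedCritical (k ^ 2) (m ^ 2) μ₁ μ₂ β u v ∧
        ∃ φ ψ : H10, dE (k ^ 2) (m ^ 2) μ₁ μ₂ β u v φ ψ ≠ 0 := by
  have A0 : 0 < P k 0 k 0 (sol k 0) := by nlinarith [P_self hk 0]
  have B0 : 0 < P m d m d (sol m d) := by nlinarith [P_self hm d]
  obtain ⟨c, c0, hc⟩ : ∃ c, 0 < c ∧ 3 * μ₂ * c ^ 2 = 2 * m ^ 2 :=
    ⟨√(2 * m ^ 2 / (3 * μ₂)), Real.sqrt_pos.2 (by positivity), by
      rw [Real.sq_sqrt (by positivity)]; field_simp⟩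
  obtain ⟨a, a0, ha⟩ : ∃ a, 0 < a ∧ 3 / 2 * μ₁ * a ^ 2 = 2 * k ^ 2 :=
    ⟨√(4 * k ^ 2 / (3 * μ₁)), Real.sqrt_pos.2 (by positivity), by
      rw [Real.sq_sqrt (by positivity)]; field_simp; norm_num⟩
  have f1 : β * c ^ 2 * P k 0 m d (sol k 0) = μ₁ * a ^ 2 / 2 * P k 0 k 0 (sol k 0) :=
    mul_left_cancel₀ h2.ne' (by
      linear_combination (2 / 3) * e1 + β * P k 0 m d (sol k 0) / 3 * hc -
        μ₂ * P k 0 k 0 (sol k 0) / 3 * ha)
  have f2 : β * a ^ 2 * P k 0 m d (sol k 0) = 2 * μ₂ * c ^ 2 * P m d m d (sol m d) :=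
    mul_left_cancel₀ h1.ne' (by
      linear_combination (4 / 3) * e2 + 2 * β * P k 0 m d (sol k 0) / 3 * ha -
        2 * μ₁ * P m d m d (sol m d) / 3 * hc)
  obtain ⟨g, hg, hr⟩ := exists_test (s := μ₁ * a ^ 2 / 2) (t := β * c ^ 2) (m := m) (d := d) hk
    fun h => hβ (mul_left_cancel₀ (show c ^ 2 * P m d m d (sol m d) ≠ 0 by positivity)
      (by linear_combination μ₁ / 2 * f2 - β * h))
  let u : H10 := ((sol_good hk 0).comb (sol_good hk 0) a 0).toH
  let v : H10 := ((sol_good hm d).comb (sol_good hm d) c 0).toH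
  have uv : ∀ x, u.val x = a * sol k 0 x := fun x => by simp [u, Good.toH, ofSmooth]
  have vv : ∀ x, v.val x = c * sol m d x := fun x => by simp [v, Good.toH, ofSmooth]
  have up : ∀ x, 0 < u.val x := fun x => uv x ▸ mul_pos a0 (sol_pos k 0 x)
  have vp : ∀ x, 0 < v.val x := fun x => vv x ▸ mul_pos c0 (sol_pos m d x)
  have i : ∀ (n e : ℝ) (φ : H10), Integrable fun x => sol k 0 x * sol n e x * sol n e x *
      φ.val x := fun n e φ => (tri hk 0 n e n e).integrable_mul φ.memLp_val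
  have j : ∀ (n e : ℝ) (φ : H10), Integrable fun x => sol m d x * sol n e x * sol n e x *
      φ.val x := fun n e φ => (tri hm d n e n e).integrable_mul φ.memLp_val
  have bu : ∀ φ, bil (k ^ 2) u φ = 2 * k ^ 2 * a * P k 0 k 0 φ.val := sol_weak hk 0 a
  have bv : ∀ φ, bil (m ^ 2) v φ = 2 * m ^ 2 * c * P m d m d φ.val := sol_weak hm d c
  have hE : ∀ φ ψ, dE (k ^ 2) (m ^ 2) μ₁ μ₂ β u v φ ψ =
      a * (μ₁ * a ^ 2 / 2 * P k 0 k 0 φ.val - β * c ^ 2 * P k 0 m d φ.val) +
        c * (2 * μ₂ * c ^ 2 * P m d m d ψ.val - β * a ^ 2 * P m d k 0 ψ.val) := fun φ ψ => by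
    have t1 := int3 (h := fun x => (μ₁ * u.val x ^ 3 + β * (u.val x * v.val x ^ 2)) * φ.val x)
      (i k 0 φ) (i m d φ) (i m d φ) (μ₁ * a ^ 3) (β * a * c ^ 2) 0
      fun x => by rw [uv, vv]; ring
    have t2 := int3 (h := fun x => (μ₂ * v.val x ^ 3 + β * (v.val x * u.val x ^ 2)) * ψ.val x)
      (j m d ψ) (j k 0 ψ) (j k 0 ψ) (μ₂ * c ^ 3) (β * c * a ^ 2) 0
      fun x => by rw [uv, vv]; ring
    rw [dE, t1, t2, bu, bv, ← hc, ← ha]
    unfold P
    ring
  have hG1 : ∀ φ ψ, dG (k ^ 2) μ₁ β u v φ ψ =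
      -2 * a * (μ₁ * a ^ 2 / 2 * P k 0 k 0 φ.val + β * c ^ 2 * P k 0 m d φ.val) -
        2 * c * β * a ^ 2 * P m d k 0 ψ.val := fun φ ψ => by
    rw [dG, bu, int3 (i k 0 φ) (i m d φ) (j k 0 ψ) (4 * μ₁ * a ^ 3) (2 * β * a * c ^ 2)
      (2 * β * a ^ 2 * c) fun x => by rw [uv, vv]; ring, ← ha]
    unfold P
    ring
  have hG2 : ∀ φ ψ, dG (m ^ 2) μ₂ β v u ψ φ = -2 * a * (β * c ^ 2 * P k 0 m d φ.val) +
      2 * c * (μ₂ * c ^ 2 * P m d m d ψ.val - β * a ^ 2 * P m d k 0 ψ.val) := fun φ ψ => by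
    rw [dG, bv, int3 (j m d ψ) (j k 0 ψ) (i m d φ) (4 * μ₂ * c ^ 3) (2 * β * c * a ^ 2)
      (2 * β * c ^ 2 * a) fun x => by rw [uv, vv]; ring, ← hc]
    unfold P
    ring
  let T : ℝ → ℝ → H10 := fun x y => ((sol_good hk 0).comb hg x y).toH
  let p : H10 := (sol_good hk 0).toH
  let q : H10 := (sol_good hm d).toH
  have hT : ∀ n e x y, P k 0 n e (T x y).val = x * P k 0 n e (sol k 0) + y * P k 0 n e g :=
    fun n e x y => by
      unfold P
      rw [int3 (i n e p) (i n e hg.toH) (i n e hg.toH) x y 0 fun t => by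
        simp only [T, p, Good.toH, ofSmooth]; ring]
      simp [p, Good.toH, ofSmooth]
  have hZ : ∀ n e, P m d n e (T 0 0).val = 0 := fun n e => by simp [P, T, Good.toH, ofSmooth]
  have ne : ∀ w : H10, (∀ x, 0 < w.val x) → ¬ (w.val =ᵐ[volume] 0) := fun w hw h => by
    obtain ⟨x, hx⟩ := h.exists
    exact (hw x).ne' hx
  have nb : ∀ l (w : H10), nsq l w = bil l w w := fun l w => by simp only [nsq, bil, sq]
  have sc : ∀ (n e s : ℝ) (w : H10), (∀ x, w.val x = s * sol n e x) →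
      P n e n e w.val = s * P n e n e (sol n e) := fun n e s w hw => by
    unfold P
    rw [← integral_const_mul]
    exact integral_congr_ae (ae_of_all _ fun x => by simp only [hw]; ring)
  refine ⟨u, v, up, vp, ⟨⟨ne u up, ne v vp, ?_, ?_⟩, fun s t => ?_, fun φ ψ g1 g2 => ?_⟩,
    T 0 1, T 0 0, ?_⟩
  · rw [nb, bu, sc k 0 a u uv, int3 (i k 0 p) (i m d p) (i m d p) (μ₁ * a ^ 4)
      (β * a ^ 2 * c ^ 2) 0 fun x => by rw [uv, vv]; simp only [p, Good.toH, ofSmooth]; ring, ← ha]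
    change _ = _ * P k 0 k 0 (sol k 0) + _ * P k 0 m d (sol k 0) + _ * P k 0 m d (sol k 0)
    linear_combination -a ^ 2 * f1
  · rw [nb, bv, sc m d c v vv, int3 (j m d q) (i m d p) (i m d p) (μ₂ * c ^ 4)
      (β * a ^ 2 * c ^ 2) 0 fun x => by
        rw [uv, vv]; simp only [p, q, Good.toH, ofSmooth]; ring, ← hc]
    change _ = _ * P m d m d (sol m d) + _ * P k 0 m d (sol k 0) + _ * P k 0 m d (sol k 0)
    linear_combination -c ^ 2 * f2
  · have d1 : -2 * a * (μ₁ * a ^ 2 / 2 * P k 0 k 0 g - β * c ^ 2 * P k 0 m d g) ≠ 0 :=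
      mul_ne_zero (by positivity) hr
    have d2 : -2 * a * (μ₁ * a ^ 2 / 2 * P k 0 k 0 (sol k 0)) ≠ 0 := by positivity
    obtain ⟨y, hy⟩ : ∃ y, y * (-2 * a * (μ₁ * a ^ 2 / 2 * P k 0 k 0 g -
      β * c ^ 2 * P k 0 m d g)) = s - 2 * t := ⟨_, div_mul_cancel₀ _ d1⟩
    obtain ⟨x, hx⟩ : ∃ x, x * (-2 * a * (μ₁ * a ^ 2 / 2 * P k 0 k 0 (sol k 0))) =
      t + 2 * a * c ^ 2 * β * y * P k 0 m d g := ⟨_, div_mul_cancel₀ _ d2⟩
    refine ⟨T x y, T 0 0, ?_, ?_⟩
    · rw [hG1, hT, hT, hZ]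
      linear_combination hy + 2 * hx - 2 * a * x * f1
    · rw [hG2, hT, hZ, hZ]
      linear_combination hx - 2 * a * x * f1
  · rw [hG1] at g1
    rw [hG2] at g2
    rw [hE]
    linear_combination -(1 / 2) * g1 + g2
  · rw [hE, hT, hT, hZ, hZ]
    intro h
    exact mul_ne_zero a0.ne' hr (by linear_combination h)

theorem main (l₁ l₂ μ₁ μ₂ β : ℝ) (hl₁ : 0 < l₁) (hl₂ : 0 < l₂) (h1 : 0 < μ₁) (h2 : 0 < μ₂)
    (hl : μ₂ ^ 2 * l₁ ^ 3 = μ₁ ^ 2 * l₂ ^ 3) (hβ : μ₁ * μ₂ * max μ₁ μ₂ < β ^ 3) :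
    ∃ u v : H10, (∀ x, 0 < u.val x) ∧ (∀ x, 0 < v.val x) ∧
      IsConstrainedCritical l₁ l₂ μ₁ μ₂ β u v ∧ ∃ φ ψ : H10, dE l₁ l₂ μ₁ μ₂ β u v φ ψ ≠ 0 := by
  have M1 := le_max_left μ₁ μ₂
  have M2 := le_max_right μ₁ μ₂
  have h12 := mul_pos h1 h2
  have β0 : 0 < β :=
    (Odd.pow_pos_iff (by decide : Odd 3)).1 ((mul_pos h12 (h1.trans_le M1)).trans hβ)
  obtain ⟨k, hk, rfl⟩ : ∃ k, 0 < k ∧ k ^ 2 = l₁ := ⟨√l₁, Real.sqrt_pos.2 hl₁, Real.sq_sqrt hl₁.le⟩
  obtain ⟨m, hm, rfl⟩ : ∃ m, 0 < m ∧ m ^ 2 = l₂ := ⟨√l₂, Real.sqrt_pos.2 hl₂, Real.sq_sqrt hl₂.le⟩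
  have e : μ₂ * k ^ 3 = μ₁ * m ^ 3 :=
    (pow_left_inj₀ (by positivity) (by positivity) two_ne_zero).1 (by linear_combination hl)
  have cube : ∀ {s t x y : ℝ}, 0 < s → 0 < x → 0 < y → s * x ^ 3 = t * y ^ 3 →
      s ^ 2 * t < β ^ 3 → s * x ≤ β * y := fun {s t x y} hs hx hy h h' =>
    le_of_pow_le_pow_left₀ three_ne_zero (by positivity) (by
      rw [mul_pow, mul_pow]
      nlinarith [mul_lt_mul_of_pos_right h' (pow_pos hy 3), congrArg (s ^ 2 * ·) h])
  obtain ⟨d, hd⟩ := exists_shift (r := 4 / 3 * (μ₂ * k) / (β * m ^ 2)) hk hm (by positivity) (by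
    rw [div_le_iff₀ (by positivity)]
    rcases le_total k m with h | h
    · have := cube h2 hk hm e (by nlinarith [mul_le_mul_of_nonneg_left M2 h12.le])
      nlinarith [mul_le_mul_of_nonneg_left (P_zero hk h) (mul_pos β0 hm).le]
    · have t1 := cube h1 hm hk e.symm (by nlinarith [mul_le_mul_of_nonneg_left M1 h12.le])
      have t2 := P_zero hm h
      rw [P_symm] at t2
      refine le_of_mul_le_mul_left ?_ (pow_pos hk 2)
      nlinarith [mul_le_mul_of_nonneg_left t2 (show 0 ≤ β * k * m ^ 2 by positivity),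
        mul_le_mul_of_nonneg_left t1 (sq_nonneg m)])
  rw [eq_div_iff (by positivity)] at hd
  refine core (d := d) hk hm h1 h2 (fun h => ?_) ?_ ?_
  · have h3 : β ^ 3 = μ₁ * μ₂ * β := by rw [← h]; ring
    have := lt_of_mul_lt_mul_left (h3 ▸ hβ) h12.le
    nlinarith
  · linear_combination hd - μ₂ * k * P_self hk 0
  · refine mul_left_cancel₀ (pow_pos hm 2).ne' ?_
    linear_combination k ^ 2 * hd + 4 / 3 * e - μ₁ * m ^ 3 * P_self hm d

end Pool.Agent.Lib.MP_a38b16_an.PS
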